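import Pool.Agent.Q308.Nm.Defs

/-!
# Basic combinatorics of Laver-like Namba trees
-/

namespace Pool.Agent.Q308.Nm

open Ordinal Cardinal Set

variable {I : Type}

/-- Small sets: of size at most `ℵ₁`. -/
def Small (A : Set I) : Prop := #A ≤ ℵ₁

/-- Large sets: of size exactly `ℵ₂`. -/
def Large (A : Set I) : Prop := #A = ℵ_ 2

theorem aleph_one_lt_two : (ℵ₁ : Cardinal.{0}) < ℵ_ 2 := by
  apply Cardinal.aleph_lt_aleph.2
  exact_mod_cast Nat.lt_succ_self 1

theorem aleph_two_eq : (ℵ_ 2 : Cardinal.{0}) = Order.succ ℵ₁ := by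
  have : (2 : Ordinal.{0}) = Order.succ 1 := by
    rw [Ordinal.succ_one]
  rw [this, Cardinal.aleph_succ]

theorem small_iff {A : Set I} : Small A ↔ #A < ℵ_ 2 := by
  rw [aleph_two_eq, Order.lt_succ_iff]
  rfl

theorem Large.not_small {A : Set I} (h : Large A) : ¬ Small A := by
  rw [small_iff, h]
  exact lt_irrefl _

theorem large_of_not_small (hI : #I = ℵ_ 2) {A : Set I} (h : ¬ Small A) : Large A := by
  rw [small_iff, not_lt] at h
  exact le_antisymm ((Cardinal.mk_set_le A).trans hI.le) h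

theorem Small.mono {A B : Set I} (h : Small B) (hAB : A ⊆ B) : Small A :=
  (Cardinal.mk_le_mk_of_subset hAB).trans h

theorem Large.mono (hI : #I = ℵ_ 2) {A B : Set I} (h : Large A) (hAB : A ⊆ B) : Large B :=
  large_of_not_small hI fun hB => h.not_small (hB.mono hAB)

theorem small_empty : Small (∅ : Set I) := by
  unfold Small
  simp

theorem small_iUnion {ι : Type} (hι : #ι ≤ ℵ₁) (f : ι → Set I) (h : ∀ i, Small (f i)) :
    Small (⋃ i, f i) := by
  unfold Small
  refine (Cardinal.mk_iUnion_le f).trans ?_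
  refine (mul_le_mul' hι (ciSup_le' h)).trans ?_
  exact (Cardinal.mul_eq_self (Cardinal.aleph0_le_aleph 1)).le

theorem Small.union {A B : Set I} (hA : Small A) (hB : Small B) : Small (A ∪ B) := by
  have h : A ∪ B = ⋃ b : Bool, (if b then A else B) := by
    ext x
    simp [or_comm]
  rw [h]
  apply small_iUnion
  · rw [Cardinal.mk_bool]
    exact (Cardinal.ofNat_lt_aleph0 (n := 2)).le.trans (Cardinal.aleph0_le_aleph 1)
  · intro b
    cases b
    · simpa using hB
    · simpa using hA

theorem Large.diff (hI : #I = ℵ_ 2) {A B : Set I} (h : Large A) (hB : Small B) :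
    Large (A \ B) := by
  apply large_of_not_small hI
  intro hc
  apply h.not_small
  apply (hc.union hB).mono
  intro x hx
  by_cases hxB : x ∈ B
  · exact Or.inr hxB
  · exact Or.inl ⟨hx, hxB⟩

theorem Large.nonempty {A : Set I} (h : Large A) : A.Nonempty := by
  by_contra hc
  rw [Set.not_nonempty_iff_eq_empty] at hc
  subst hc
  exact h.not_small small_empty

theorem small_singleton (a : I) : Small ({a} : Set I) := by
  unfold Small
  rw [Cardinal.mk_singleton]
  exact Cardinal.one_le_aleph0.trans (Cardinal.aleph0_le_aleph 1)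

/-- Pigeonhole principle. -/
theorem pigeonhole (hI : #I = ℵ_ 2) {ι : Type} (hι : #ι ≤ ℵ₁) {A : Set I} (hA : ¬ Small A)
    (c : I → ι) : ∃ j, Large {i ∈ A | c i = j} := by
  by_contra hcon
  push Not at hcon
  apply hA
  have h1 : A ⊆ ⋃ j, {i ∈ A | c i = j} := by
    intro i hi
    exact Set.mem_iUnion.2 ⟨c i, hi, rfl⟩
  refine Small.mono (small_iUnion hι _ fun j => ?_) h1
  by_contra hs
  exact hcon j (large_of_not_small hI hs)

/-! ### Lists -/

theorem prefix_snoc_iff {l : List I} {t : List I} {i : I} :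
    l <+: t ++ [i] ↔ l <+: t ∨ l = t ++ [i] := by
  rw [List.prefix_concat_iff]
  tauto

theorem prefix_total {a b c : List I} (ha : a <+: c) (hb : b <+: c) : a <+: b ∨ b <+: a :=
  List.prefix_or_prefix_of_prefix ha hb

theorem eq_of_prefix_len {a b : List I} (h : a <+: b) (hl : b.length ≤ a.length) : a = b :=
  h.eq_of_length_le hl

theorem snoc_inj_of_prefix {t : List I} {i j : I} {c : List I} (hi : t ++ [i] <+: c)
    (hj : t ++ [j] <+: c) : i = j := by
  have h : t ++ [i] = t ++ [j] := by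
    rcases prefix_total hi hj with h | h
    · exact eq_of_prefix_len h (by simp)
    · exact (eq_of_prefix_len h (by simp)).symm
  simpa using h

theorem exists_snoc_prefix {t c : List I} (h : t <+: c) (hne : t ≠ c) : ∃ i, t ++ [i] <+: c := by
  obtain ⟨d, rfl⟩ := h
  cases d with
  | nil => simp at hne
  | cons i d => exact ⟨i, ⟨d, by simp⟩⟩

theorem not_snoc_prefix {t : List I} {i : I} {s : List I} (h : s <+: t) : ¬ t ++ [i] <+: s := by
  intro h'
  have h1 := h.length_le
  have h2 := h'.length_le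
  simp at h2
  omega

/-! ### Trees with stems -/

/-- `p` is a Laver-like Namba tree with stem `s`. -/
structure NT (p : Set (List I)) (s : List I) : Prop where
  mem : s ∈ p
  closed : ∀ t ∈ p, ∀ u, u <+: t → u ∈ p
  comp : ∀ t ∈ p, t <+: s ∨ s <+: t
  large : ∀ t ∈ p, s <+: t → Large {i | t ++ [i] ∈ p}

/-- The part of `p` comparable with `t`. -/
def sub (p : Set (List I)) (t : List I) : Set (List I) := {u ∈ p | u <+: t ∨ t <+: u}

theorem sub_subset (p : Set (List I)) (t : List I) : sub p t ⊆ p := fun _ h => h.1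

theorem sub_mono {p q : Set (List I)} (h : p ⊆ q) (t : List I) : sub p t ⊆ sub q t :=
  fun _ hu => ⟨h hu.1, hu.2⟩

theorem NT.sub {p : Set (List I)} {s t : List I} (h : NT p s) (ht : t ∈ p) (hst : s <+: t) :
    NT (sub p t) t := by
  refine ⟨⟨ht, Or.inl (List.prefix_refl t)⟩, ?_, ?_, ?_⟩
  · rintro u ⟨hu, hut⟩ v hv
    refine ⟨h.closed u hu v hv, ?_⟩
    rcases hut with h1 | h1
    · exact Or.inl (hv.trans h1)
    · exact prefix_total hv h1
  · rintro u ⟨_, hu⟩
    exact hu
  · rintro u ⟨hu, _⟩ htu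
    have h1 := h.large u hu (hst.trans htu)
    have h2 : {i | u ++ [i] ∈ Nm.sub p t} = {i | u ++ [i] ∈ p} := by
      ext i
      constructor
      · intro hi
        exact hi.1
      · intro hi
        exact ⟨hi, Or.inr (htu.trans (List.prefix_append _ _))⟩
    rw [h2]
    exact h1

theorem NT.sub_stem {p : Set (List I)} {s : List I} (h : NT p s) : Nm.sub p s = p := by
  apply Set.Subset.antisymm (sub_subset _ _)
  intro u hu
  exact ⟨hu, h.comp u hu⟩

theorem sub_sub {p : Set (List I)} {t u : List I} (h : t <+: u) :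
    sub (sub p t) u = sub p u := by
  apply Set.Subset.antisymm (sub_mono (sub_subset _ _) _)
  rintro v ⟨hv, hvu⟩
  refine ⟨⟨hv, ?_⟩, hvu⟩
  rcases hvu with h1 | h1
  · exact prefix_total h1 h
  · exact Or.inr (h.trans h1)

theorem NT.stem_prefix {p q : Set (List I)} {s t : List I} (hp : NT p s) (hq : NT q t)
    (h : q ⊆ p) : s <+: t := by
  rcases hp.comp t (h hq.mem) with h1 | h1
  · by_cases hts : t = s
    · rw [hts]
    · exfalso
      obtain ⟨j, hj⟩ := exists_snoc_prefix h1 hts
      have h2 := hq.large t hq.mem (List.prefix_refl t)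
      apply h2.not_small
      refine (small_singleton j).mono ?_
      intro i hi
      rw [Set.mem_singleton_iff]
      rcases hp.comp _ (h hi) with h3 | h3
      · exact snoc_inj_of_prefix h3 hj
      · exact (snoc_inj_of_prefix (List.prefix_refl _) (hj.trans h3))
  · exact h1

theorem NT.exists_long {p : Set (List I)} {s : List I} (h : NT p s) (n : ℕ) :
    ∃ t ∈ p, s <+: t ∧ n ≤ t.length := by
  induction n with
  | zero => exact ⟨s, h.mem, List.prefix_refl s, Nat.zero_le _⟩
  | succ n ih =>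
    obtain ⟨t, ht, hst, hn⟩ := ih
    obtain ⟨i, hi⟩ := (h.large t ht hst).nonempty
    refine ⟨t ++ [i], hi, hst.trans (List.prefix_append _ _), ?_⟩
    simp
    omega

/-- A condition. -/
def IsC (p : Set (List I)) : Prop := ∃ s, NT p s

/-! ### Pruning -/

/-- Remove the bad successors. -/
def prune (r : Set (List I)) (s : List I) (B : List I → I → Prop) : Set (List I) :=
  {u ∈ r | ∀ t i, s <+: t → t ++ [i] <+: u → ¬ B t i}

theorem prune_subset (r : Set (List I)) (s : List I) (B : List I → I → Prop) :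
    prune r s B ⊆ r := fun _ h => h.1

theorem NT.prune (hI : #I = ℵ_ 2) {r : Set (List I)} {s : List I} (h : NT r s)
    {B : List I → I → Prop}
    (hB : ∀ t ∈ prune r s B, s <+: t → Small {i | t ++ [i] ∈ r ∧ B t i}) :
    NT (prune r s B) s := by
  refine ⟨⟨h.mem, ?_⟩, ?_, ?_, ?_⟩
  · intro t i hst hts
    exact absurd hts (not_snoc_prefix hst)
  · rintro t ⟨ht, ht'⟩ u hu
    exact ⟨h.closed t ht u hu, fun v i hsv hv => ht' v i hsv (hv.trans hu)⟩
  · rintro t ⟨ht, _⟩
    exact h.comp t ht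
  · intro t ht hst
    have h1 := (h.large t ht.1 hst).diff hI (hB t ht hst)
    refine h1.mono hI ?_
    rintro i ⟨hi, hi'⟩
    refine ⟨hi, ?_⟩
    intro v j hsv hv hbad
    rcases prefix_snoc_iff.1 hv with h2 | h2
    · exact ht.2 v j hsv h2 hbad
    · have h3 : v = t ∧ j = i := by simpa using h2
      obtain ⟨rfl, rfl⟩ := h3
      exact hi' ⟨hi, hbad⟩

/-! ### Gluing -/

/-- Union of trees indexed by successors. -/
def glue (A : Set I) (Q : I → Set (List I)) : Set (List I) := ⋃ i ∈ A, Q i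

theorem mem_glue {A : Set I} {Q : I → Set (List I)} {u : List I} :
    u ∈ glue A Q ↔ ∃ i ∈ A, u ∈ Q i := by
  simp [glue]

theorem glue_key {A : Set I} {Q : I → Set (List I)} {t : List I}
    (hQ : ∀ i ∈ A, NT (Q i) (t ++ [i])) {u : List I} (hu : u ∈ glue A Q) {i : I}
    (hi : t ++ [i] <+: u) : i ∈ A ∧ u ∈ Q i := by
  obtain ⟨j, hj, huj⟩ := mem_glue.1 hu
  have : i = j := by
    rcases (hQ j hj).comp u huj with h1 | h1
    · exact snoc_inj_of_prefix (hi.trans h1) (List.prefix_refl _)
    · exact snoc_inj_of_prefix hi h1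
  subst this
  exact ⟨hj, huj⟩

theorem NT_glue (hI : #I = ℵ_ 2) {A : Set I} (hA : Large A) {Q : I → Set (List I)} {t : List I}
    (hQ : ∀ i ∈ A, NT (Q i) (t ++ [i])) : NT (glue A Q) t := by
  obtain ⟨i0, hi0⟩ := hA.nonempty
  refine ⟨?_, ?_, ?_, ?_⟩
  · exact mem_glue.2 ⟨i0, hi0, (hQ i0 hi0).closed _ (hQ i0 hi0).mem _ (List.prefix_append _ _)⟩
  · intro u hu v hv
    obtain ⟨i, hi, hui⟩ := mem_glue.1 hu
    exact mem_glue.2 ⟨i, hi, (hQ i hi).closed u hui v hv⟩
  · intro u hu
    obtain ⟨i, hi, hui⟩ := mem_glue.1 hu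
    rcases (hQ i hi).comp u hui with h1 | h1
    · rcases prefix_snoc_iff.1 h1 with h2 | h2
      · exact Or.inl h2
      · exact Or.inr (h2 ▸ List.prefix_append _ _)
    · exact Or.inr ((List.prefix_append _ _).trans h1)
  · intro u hu htu
    by_cases hut : t = u
    · subst hut
      refine hA.mono hI ?_
      intro i hi
      exact mem_glue.2 ⟨i, hi, (hQ i hi).mem⟩
    · obtain ⟨i, hi⟩ := exists_snoc_prefix htu hut
      obtain ⟨hiA, hui⟩ := glue_key hQ hu hi
      refine ((hQ i hiA).large u hui hi).mono hI ?_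
      intro j hj
      exact mem_glue.2 ⟨i, hiA, hj⟩

theorem glue_below {A : Set I} {Q : I → Set (List I)} {t : List I}
    (hG : NT (glue A Q) t) (hQ : ∀ i ∈ A, NT (Q i) (t ++ [i])) {q : Set (List I)} (hq : IsC q)
    (hqG : q ⊆ glue A Q) : ∃ i ∈ A, ∃ q', IsC q' ∧ q' ⊆ q ∧ q' ⊆ Q i := by
  obtain ⟨s, hs⟩ := hq
  have hts : t <+: s := hG.stem_prefix hs hqG
  obtain ⟨u, hu, hsu, hlen⟩ := hs.exists_long (t.length + 1)
  have htu : t <+: u := hts.trans hsu
  have hne : t ≠ u := by
    rintro rfl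
    omega
  obtain ⟨i, hi⟩ := exists_snoc_prefix htu hne
  obtain ⟨hiA, hui⟩ := glue_key hQ (hqG hu) hi
  refine ⟨i, hiA, sub q u, ⟨u, hs.sub hu hsu⟩, sub_subset _ _, ?_⟩
  rintro v ⟨hv, hvu⟩
  rcases hvu with h1 | h1
  · exact (hQ i hiA).closed u hui v h1
  · exact (glue_key hQ (hqG hv) (hi.trans h1)).2

end Pool.Agent.Q308.Nm
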