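import Pool.Agent.Q308.Nm.Core1

/-!
# Splitting and the game for Laver-like Namba trees
-/

namespace Pool.Agent.Q308.Nm

open Ordinal Cardinal Set

variable {I : Type} {T : Type}

/-- The properties of the relation `q forces v to be in the generic subset`. -/
structure FR (F : Set (List I) → T → Prop) : Prop where
  mono : ∀ q q' v, IsC q → IsC q' → q' ⊆ q → F q v → F q' v
  dense : ∀ q v, IsC q → (∀ q' ⊆ q, IsC q' → ∃ q'' ⊆ q', IsC q'' ∧ F q'' v) → F q v

theorem F_glue {F : Set (List I) → T → Prop} (hF : FR F) {A : Set I} {Q : I → Set (List I)}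
    {t : List I} (hG : NT (glue A Q) t) (hQ : ∀ i ∈ A, NT (Q i) (t ++ [i])) {v : T}
    (hv : ∀ i ∈ A, F (Q i) v) : F (glue A Q) v := by
  apply hF.dense _ _ ⟨t, hG⟩
  intro q hqG hq
  obtain ⟨i, hi, q', hq', hq'q, hq'Q⟩ := glue_below hG hQ hq hqG
  exact ⟨q', hq'q, hq', hF.mono _ _ _ ⟨_, hQ i hi⟩ hq' hq'Q (hv i hi)⟩

/-- The nodes which some pure extension forces to be in the generic subset. -/
def NN (F : Set (List I) → T → Prop) (r : Set (List I)) (s : List I) : Set T :=
  {v | ∃ q ⊆ r, NT q s ∧ F q v}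

theorem NN_mono {F : Set (List I) → T → Prop} {r r' : Set (List I)} (h : r ⊆ r') (s : List I) :
    NN F r s ⊆ NN F r' s := by
  rintro v ⟨q, hq, hq', hv⟩
  exact ⟨q, hq.trans h, hq', hv⟩

/-- The generic subset is forced to be a branch (a chain meeting all the sets `lev α`, the sets
`lev α` being antichains covering `T`). -/
structure BR {ι : Type*} (F : Set (List I) → T → Prop) (le : T → T → Prop) (lev : ι → Set T)
    (p : Set (List I)) : Prop where
  chain : ∀ q ⊆ p, IsC q → ∀ v v', F q v → F q v' → le v v' ∨ le v' v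
  meets : ∀ q ⊆ p, IsC q → ∀ α, (lev α).Nonempty → ∃ q' ⊆ q, IsC q' ∧ ∃ v ∈ lev α, F q' v

/-- `q` decides the generic subset. -/
def Decides (F : Set (List I) → T → Prop) (q : Set (List I)) (B : Set T) : Prop :=
  (∀ v ∈ B, F q v) ∧ ∀ v ∉ B, ∀ q' ⊆ q, IsC q' → ¬ F q' v

theorem splitting (hI : #I = ℵ_ 2) (hT : #T ≤ ℵ₁) {ι : Type*} {F : Set (List I) → T → Prop}
    (hF : FR F) {le : T → T → Prop} {lev : ι → Set T} (hcov : ∀ v, ∃ α, v ∈ lev α)
    (hanti : ∀ α, ∀ v ∈ lev α, ∀ v' ∈ lev α, (le v v' ∨ le v' v) → v = v')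
    {r : Set (List I)} {s : List I} (hr : NT r s) (hb : BR F le lev r)
    (hnd : ∀ q ⊆ r, IsC q → ∀ B, ¬ Decides F q B) :
    ∃ t ∈ r, s <+: t ∧ ∃ a ∈ NN F (sub r t) t, ∃ b ∈ NN F (sub r t) t, ¬ le a b ∧ ¬ le b a := by
  by_contra hcon
  push Not at hcon
  have hchain : ∀ t ∈ r, s <+: t → ∀ a ∈ NN F (sub r t) t, ∀ b ∈ NN F (sub r t) t,
      le a b ∨ le b a := by
    intro t ht hst a ha b hb'
    by_cases h : le a b
    · exact Or.inl h
    · exact Or.inr (hcon t ht hst a ha b hb' h)
  -- the bad successors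
  let Bad : List I → I → Prop := fun t i => ¬ NN F (sub r (t ++ [i])) (t ++ [i]) ⊆ NN F (sub r t) t
  have hsmall : ∀ t ∈ r, s <+: t → Small {i | t ++ [i] ∈ r ∧ Bad t i} := by
    intro t ht hst
    by_contra hns
    have hch : ∀ i : I, ∃ v : T, (t ++ [i] ∈ r ∧ Bad t i) →
        v ∈ NN F (sub r (t ++ [i])) (t ++ [i]) ∧ v ∉ NN F (sub r t) t := by
      intro i
      by_cases hi : t ++ [i] ∈ r ∧ Bad t i
      · obtain ⟨v, hv, hv'⟩ := Set.not_subset.1 hi.2
        exact ⟨v, fun _ => ⟨hv, hv'⟩⟩
      · -- an arbitrary value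
        have hne : Nonempty T := by
          by_contra hne
          rw [not_nonempty_iff] at hne
          obtain ⟨j, hj, hj'⟩ : ({i | t ++ [i] ∈ r ∧ Bad t i}).Nonempty := by
            by_contra he
            rw [Set.not_nonempty_iff_eq_empty] at he
            rw [he] at hns
            exact hns small_empty
          obtain ⟨v, _, _⟩ := Set.not_subset.1 hj'
          exact hne.false v
        obtain ⟨v⟩ := hne
        exact ⟨v, fun h => absurd h hi⟩
    choose c hc using hch
    obtain ⟨v, hv⟩ := pigeonhole hI hT hns c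
    set A : Set I := {i ∈ {i | t ++ [i] ∈ r ∧ Bad t i} | c i = v} with hA
    have hQ : ∀ i : I, ∃ q : Set (List I), i ∈ A →
        q ⊆ sub r (t ++ [i]) ∧ NT q (t ++ [i]) ∧ F q v := by
      intro i
      by_cases hi : i ∈ A
      · obtain ⟨q, hq, hq', hqv⟩ := (hc i hi.1).1
        rw [show c i = v from hi.2] at hqv
        exact ⟨q, fun _ => ⟨hq, hq', hqv⟩⟩
      · exact ⟨∅, fun h => absurd h hi⟩
    choose Q hQ using hQ
    have hG := NT_glue hI hv (fun i hi => (hQ i hi).2.1)
    have hGF := F_glue hF hG (fun i hi => (hQ i hi).2.1) (fun i hi => (hQ i hi).2.2)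
    obtain ⟨i, hi⟩ := hv.nonempty
    have h1 := (hc i hi.1).2
    rw [show c i = v from hi.2] at h1
    apply h1
    refine ⟨glue A Q, ?_, hG, hGF⟩
    intro u hu
    refine ⟨?_, hG.comp u hu⟩
    obtain ⟨j, hj, huj⟩ := mem_glue.1 hu
    exact ((hQ j hj).1 huj).1
  have hP : NT (prune r s Bad) s := hr.prune hI (fun t ht hst => hsmall t ht.1 hst)
  have hPsub : prune r s Bad ⊆ r := prune_subset _ _ _
  -- along the pruned tree, the sets are decreasing
  have hdec : ∀ d : List I, s ++ d ∈ prune r s Bad →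
      NN F (sub r (s ++ d)) (s ++ d) ⊆ NN F (sub r s) s := by
    intro d
    induction d using List.reverseRecOn with
    | nil => simp
    | append_singleton d i ih =>
      intro hd
      have hd' : s ++ d ∈ prune r s Bad := by
        apply hP.closed _ hd
        rw [← List.append_assoc]
        exact List.prefix_append _ _
      refine Set.Subset.trans ?_ (ih hd')
      have h1 := hd.2 (s ++ d) i (List.prefix_append _ _) (by rw [List.append_assoc])
      rw [← List.append_assoc]
      exact not_not.1 h1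
  -- the pruned tree decides
  apply hnd (prune r s Bad) hPsub ⟨s, hP⟩ (NN F (sub r s) s)
  have hdec' : ∀ q ⊆ prune r s Bad, IsC q → ∀ v, F q v → v ∈ NN F (sub r s) s := by
    intro q hq hqC v hv
    obtain ⟨t, ht⟩ := hqC
    have hst := hP.stem_prefix ht hq
    obtain ⟨d, rfl⟩ := hst
    apply hdec d (hq ht.mem)
    refine ⟨q, ?_, ht, hv⟩
    intro u hu
    exact ⟨hPsub (hq hu), ht.comp u hu⟩
  constructor
  · intro v hv
    apply hF.dense _ _ ⟨s, hP⟩
    intro q hq hqC
    obtain ⟨α, hα⟩ := hcov v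
    obtain ⟨q', hq'q, hq', v', hv', hFv'⟩ := hb.meets q (hq.trans hPsub) hqC α ⟨v, hα⟩
    have h1 := hdec' q' (hq'q.trans hq) hq' v' hFv'
    have h2 : v = v' := hanti α v hα v' hv' (hchain s hr.mem (List.prefix_refl s) v hv v' h1)
    subst h2
    exact ⟨q', hq'q, hq', hFv'⟩
  · intro v hv q hq hqC hFv
    exact hv (hdec' q hq hqC v hFv)

/-! ### Ranks for least fixed points -/

theorem exists_rank {X : Type} (f : Set X →o Set X) :
    ∃ ρ : X → Ordinal.{0}, ∀ x ∈ f.lfp, x ∈ f {y ∈ f.lfp | ρ y < ρ x} := by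
  classical
  let A : Ordinal.{0} → Set X := OrdinalApprox.lfpApprox f ⊥
  have hA : ∀ a x, x ∈ A a → ∃ b < a, x ∈ f (A b) := by
    intro a x hx
    have h1 : A a = ⊥ ⊔ ⨆ b < a, f (A b) := by
      change OrdinalApprox.lfpApprox f ⊥ a = _
      rw [OrdinalApprox.lfpApprox]
    rw [h1] at hx
    simpa using hx
  have hAle : ∀ a, A a ⊆ f.lfp := by
    intro a
    exact OrdinalApprox.lfpApprox_le_of_mem_fixedPoints f (f.isFixedPt_lfp) bot_le a
  have hex : ∀ x ∈ f.lfp, ∃ b, x ∈ f (A b) := by
    intro x hx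
    obtain ⟨a, ha⟩ := OrdinalApprox.lfp_mem_range_lfpApprox f
    rw [← ha] at hx
    obtain ⟨b, _, hb⟩ := hA a x hx
    exact ⟨b, hb⟩
  let ρ : X → Ordinal.{0} := fun x => sInf {b | x ∈ f (A b)}
  refine ⟨ρ, fun x hx => ?_⟩
  have h1 : x ∈ f (A (ρ x)) := csInf_mem (s := {b | x ∈ f (A b)}) (hex x hx)
  have h2 : A (ρ x) ⊆ {y ∈ f.lfp | ρ y < ρ x} := by
    intro y hy
    refine ⟨hAle _ hy, ?_⟩
    obtain ⟨b, hb, hyb⟩ := hA _ _ hy
    exact (csInf_le' (s := {b | y ∈ f (A b)}) hyb).trans_lt hb
  exact f.mono h2 h1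

/-! ### The game -/

/-- An infinite play: the sequence of conditions `R n` with stems `S n`, player I's conditions
`Q n` and chosen successors `X n`. -/
structure Play (F' : ℕ → Set (List I) → Prop) (R : ℕ → Set (List I)) (S : ℕ → List I)
    (Q : ℕ → Set (List I)) (X : ℕ → I) : Prop where
  sub : ∀ n, Q n ⊆ R n
  nt : ∀ n, NT (Q n) (S n)
  force : ∀ n, F' n (Q n)
  mem : ∀ n, S n ++ [X n] ∈ Q n
  nextR : ∀ n, R (n + 1) = Nm.sub (Q n) (S n ++ [X n])
  nextS : ∀ n, S (n + 1) = S n ++ [X n]

/-- Determinacy of the game. -/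
theorem determinacy (hI : #I = ℵ_ 2) (F' : ℕ → Set (List I) → Prop)
    (hmono : ∀ n q q', IsC q → IsC q' → q' ⊆ q → F' n q → F' n q')
    (hdense : ∀ n q, IsC q → (∀ q' ⊆ q, IsC q' → ∃ q'' ⊆ q', IsC q'' ∧ F' n q'') → F' n q)
    {p : Set (List I)} {s : List I} (hp : NT p s) :
    (∃ q ⊆ p, NT q s ∧ ∀ n, F' n q) ∨
    ∃ Γ : ℕ → Set (List I) → List I → Set (List I) → Set I, (∀ n r t q, Small (Γ n r t q)) ∧
      ∀ R S Q X, R 0 = p → S 0 = s → Play F' R S Q X → ∃ n, X n ∈ Γ n (R n) (S n) (Q n) := by
  classical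
  -- the operator
  let X := ℕ × Set (List I) × List I
  let f : Set X →o Set X :=
    { toFun := fun Y => {x | ∀ q ⊆ x.2.1, NT q x.2.2 → F' x.1 q →
        Small {i | x.2.2 ++ [i] ∈ q ∧
          (x.1 + 1, sub q (x.2.2 ++ [i]), x.2.2 ++ [i]) ∉ Y}}
      monotone' := by
        intro Y Z hYZ x hx q hq hq' hF
        refine (hx q hq hq' hF).mono ?_
        rintro i ⟨hi, hi'⟩
        exact ⟨hi, fun h => hi' (hYZ h)⟩ }
  obtain ⟨ρ, hρ⟩ := exists_rank f
  by_cases hL : ((0, p, s) : X) ∈ f.lfp
  · right
    let Γ : ℕ → Set (List I) → List I → Set (List I) → Set I := fun n r t q =>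
      if Small {i | t ++ [i] ∈ q ∧
          ((n + 1, sub q (t ++ [i]), t ++ [i]) : X) ∉ {y ∈ f.lfp | ρ y < ρ (n, r, t)}} then
        {i | t ++ [i] ∈ q ∧
          ((n + 1, sub q (t ++ [i]), t ++ [i]) : X) ∉ {y ∈ f.lfp | ρ y < ρ (n, r, t)}}
      else ∅
    refine ⟨Γ, ?_, ?_⟩
    · intro n r t q
      simp only [Γ]
      split_ifs with h
      · exact h
      · exact small_empty
    · intro R S Q Xs hR0 hS0 hplay
      by_contra hcon
      push Not at hcon
      have hstep : ∀ n, ((n, R n, S n) : X) ∈ f.lfp →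
          ((n + 1, R (n + 1), S (n + 1)) : X) ∈ f.lfp ∧
            ρ (n + 1, R (n + 1), S (n + 1)) < ρ (n, R n, S n) := by
        intro n hn
        have h1 := hρ _ hn
        have h2 := h1 (Q n) (hplay.sub n) (hplay.nt n) (hplay.force n)
        have h3 := hcon n
        simp only [Γ] at h3
        rw [if_pos h2] at h3
        have h4 : ((n + 1, sub (Q n) (S n ++ [Xs n]), S n ++ [Xs n]) : X) ∈
            {y ∈ f.lfp | ρ y < ρ (n, R n, S n)} := by
          by_contra h5
          exact h3 ⟨hplay.mem n, h5⟩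
        rw [hplay.nextR n, hplay.nextS n]
        exact h4
      have hall : ∀ n, ((n, R n, S n) : X) ∈ f.lfp := by
        intro n
        induction n with
        | zero => rw [hR0, hS0]; exact hL
        | succ n ih => exact (hstep n ih).1
      have hdecr : ∀ n, ρ (n + 1, R (n + 1), S (n + 1)) < ρ (n, R n, S n) := fun n =>
        (hstep n (hall n)).2
      exact (RelEmbedding.natGT (r := (· < ·)) (fun n => ρ (n, R n, S n)) hdecr).not_wellFounded
        Ordinal.lt_wf
  · left
    -- good moves of player I at positions outside the fixed point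
    have hmove : ∀ x : X, ∃ q : Set (List I), x ∉ f.lfp → q ⊆ x.2.1 ∧ NT q x.2.2 ∧ F' x.1 q ∧
        ¬ Small {i | x.2.2 ++ [i] ∈ q ∧
          ((x.1 + 1, sub q (x.2.2 ++ [i]), x.2.2 ++ [i]) : X) ∉ f.lfp} := by
      intro x
      by_cases hx : x ∉ f.lfp
      · have h1 : x ∉ f f.lfp := by rwa [f.map_lfp]
        have h2 : ¬ ∀ q ⊆ x.2.1, NT q x.2.2 → F' x.1 q →
          Small {i | x.2.2 ++ [i] ∈ q ∧
          ((x.1 + 1, sub q (x.2.2 ++ [i]), x.2.2 ++ [i]) : X) ∉ f.lfp} := h1
        push Not at h2
        obtain ⟨q, h3, h4, h5, h6⟩ := h2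
        exact ⟨q, fun _ => ⟨h3, h4, h5, h6⟩⟩
      · exact ⟨∅, fun h => absurd h hx⟩
    choose M hM using hmove
    -- the positions along the tree: computed from the list of successors, in reversed order
    let rec_pos : List I → X := fun d => d.foldl
      (fun x i => (x.1 + 1, sub (M x) (x.2.2 ++ [i]), x.2.2 ++ [i])) (0, p, s)
    have hrec_snoc : ∀ d i, rec_pos (d ++ [i]) =
        ((rec_pos d).1 + 1, sub (M (rec_pos d)) ((rec_pos d).2.2 ++ [i]), (rec_pos d).2.2 ++ [i]) := by
      intro d i
      simp only [rec_pos, List.foldl_append, List.foldl_cons, List.foldl_nil]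
    have hrec1 : ∀ d, (rec_pos d).1 = d.length := by
      intro d
      induction d using List.reverseRecOn with
      | nil => rfl
      | append_singleton d i ih => rw [hrec_snoc]; simp [ih]
    have hrec2 : ∀ d, (rec_pos d).2.2 = s ++ d := by
      intro d
      induction d using List.reverseRecOn with
      | nil => simp [rec_pos]
      | append_singleton d i ih => rw [hrec_snoc]; simp [ih]
    -- the good nodes
    let G : List I → Prop := fun d => ∀ e i, e ++ [i] <+: d →
      (rec_pos e).2.2 ++ [i] ∈ M (rec_pos e) ∧ rec_pos (e ++ [i]) ∉ f.lfp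
    have hGpre : ∀ d e, e <+: d → G d → G e := fun d e hed hG c i hc => hG c i (hc.trans hed)
    have hGnot : ∀ d, G d → rec_pos d ∉ f.lfp := by
      intro d hd
      rcases List.eq_nil_or_concat d with rfl | ⟨e, i, rfl⟩
      · exact hL
      · rw [List.concat_eq_append] at hd ⊢
        exact (hd e i (List.prefix_refl _)).2
    have hGsnoc : ∀ d i, G (d ++ [i]) ↔ G d ∧ (rec_pos d).2.2 ++ [i] ∈ M (rec_pos d) ∧
        rec_pos (d ++ [i]) ∉ f.lfp := by
      intro d i
      constructor
      · intro h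
        exact ⟨hGpre _ _ (List.prefix_append _ _) h, h d i (List.prefix_refl _)⟩
      · rintro ⟨h1, h2⟩ e j he
        rcases prefix_snoc_iff.1 he with h3 | h3
        · exact h1 e j h3
        · have h4 : e = d ∧ j = i := by simpa using h3
          obtain ⟨rfl, rfl⟩ := h4
          exact h2
    -- the tree of good nodes
    let q : Set (List I) := {u | u <+: s ∨ ∃ d, G d ∧ u = s ++ d}
    have hGnil : G [] := by
      intro e i he
      have := he.length_le
      simp at this
    have hmemM : ∀ d, G d → s ++ d ∈ M (rec_pos d) := by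
      intro d hd
      have h1 := (hM _ (hGnot d hd)).2.1.mem
      rwa [hrec2] at h1
    have hinP : ∀ d, G d → s ++ d ∈ p ∧ (rec_pos d).2.1 ⊆ p := by
      intro d
      induction d using List.reverseRecOn with
      | nil =>
        intro _
        simp only [List.append_nil]
        exact ⟨hp.mem, Set.Subset.refl _⟩
      | append_singleton d i ih =>
        intro hd
        have h1 := (hGsnoc d i).1 hd
        have h2 := ih h1.1
        have h3 : M (rec_pos d) ⊆ p := (hM _ (hGnot d h1.1)).1.trans h2.2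
        refine ⟨?_, ?_⟩
        · have h4 := h3 h1.2.1
          rwa [hrec2, List.append_assoc] at h4
        · rw [hrec_snoc]
          exact (sub_subset _ _).trans h3
    have hMp : ∀ d, G d → M (rec_pos d) ⊆ p := fun d hd =>
      (hM _ (hGnot d hd)).1.trans (hinP d hd).2
    have hqNT : NT q s := by
      refine ⟨Or.inl (List.prefix_refl s), ?_, ?_, ?_⟩
      · rintro u (hu | ⟨d, hd, rfl⟩) v hv
        · exact Or.inl (hv.trans hu)
        · rcases prefix_total hv (List.prefix_append s d) with h1 | h1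
          · exact Or.inl h1
          · obtain ⟨e, rfl⟩ := h1
            refine Or.inr ⟨e, hGpre d e ?_ hd, rfl⟩
            exact (List.prefix_append_right_inj s).1 hv
      · rintro u (hu | ⟨d, _, rfl⟩)
        · exact Or.inl hu
        · exact Or.inr (List.prefix_append _ _)
      · intro u hu hsu
        have hex : ∃ d, G d ∧ u = s ++ d := by
          rcases hu with hu | hu
          · exact ⟨[], hGnil, by
              rw [List.append_nil]
              exact eq_of_prefix_len hu hsu.length_le⟩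
          · exact hu
        obtain ⟨d, hd, rfl⟩ := hex
        have h1 := large_of_not_small hI (hM _ (hGnot d hd)).2.2.2
        refine h1.mono hI ?_
        rintro i ⟨hi, hi'⟩
        refine Or.inr ⟨d ++ [i], ?_, by rw [List.append_assoc]⟩
        rw [hGsnoc]
        refine ⟨hd, hi, ?_⟩
        rw [hrec_snoc]
        exact hi'
    refine ⟨q, ?_, hqNT, ?_⟩
    · rintro u (hu | ⟨d, hd, rfl⟩)
      · exact hp.closed _ hp.mem _ hu
      · exact (hinP d hd).1
    · intro n
      apply hdense n q ⟨s, hqNT⟩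
      intro q' hq' hq'C
      obtain ⟨t, ht⟩ := hq'C
      have hst := hqNT.stem_prefix ht hq'
      obtain ⟨u, hu, htu, hlen⟩ := ht.exists_long (s.length + n)
      have hsu := hst.trans htu
      have hex : ∃ d, G d ∧ u = s ++ d := by
        rcases hq' hu with h1 | h1
        · exact ⟨[], hGnil, by
            rw [List.append_nil]
            exact eq_of_prefix_len h1 hsu.length_le⟩
        · exact h1
      obtain ⟨d, hd, rfl⟩ := hex
      have hdn : n ≤ d.length := by
        simp at hlen
        omega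
      refine ⟨sub q' (s ++ d), sub_subset _ _, ⟨_, ht.sub hu htu⟩, ?_⟩
      have hed : d.take n <+: d := List.take_prefix _ _
      have hGe : G (d.take n) := hGpre _ _ hed hd
      have hle : (rec_pos (d.take n)).1 = n := by
        rw [hrec1, List.length_take]
        omega
      have hF' := (hM _ (hGnot _ hGe)).2.2.1
      rw [hle] at hF'
      refine hmono n _ _ ⟨_, (hM _ (hGnot _ hGe)).2.1⟩ ⟨_, ht.sub hu htu⟩ ?_ hF'
      -- every good node extending the node at length n is in the tree chosen there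
      have hkey : ∀ e c, G (e ++ c) → s ++ (e ++ c) ∈ M (rec_pos e) ∧
          M (rec_pos (e ++ c)) ⊆ M (rec_pos e) := by
        intro e c
        induction c using List.reverseRecOn with
        | nil =>
          intro h
          rw [List.append_nil] at h ⊢
          exact ⟨hmemM e h, Set.Subset.refl _⟩
        | append_singleton c i ih =>
          intro h
          have hassoc : e ++ (c ++ [i]) = (e ++ c) ++ [i] := (List.append_assoc _ _ _).symm
          rw [hassoc] at h ⊢
          have h1 := (hGsnoc _ _).1 h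
          have h2 := ih h1.1
          have h3 : M (rec_pos (e ++ c ++ [i])) ⊆ M (rec_pos (e ++ c)) := by
            refine (hM _ h1.2.2).1.trans ?_
            rw [hrec_snoc]
            exact sub_subset _ _
          refine ⟨?_, h3.trans h2.2⟩
          have h4 := h1.2.1
          rw [hrec2, List.append_assoc] at h4
          exact h2.2 h4
      have hMtree := (hM _ (hGnot _ hGe)).2.1
      rintro v ⟨hv, hv'⟩
      have hsd : s ++ d ∈ M (rec_pos (d.take n)) := by
        have := (hkey (d.take n) (d.drop n) (by rw [List.take_append_drop]; exact hd)).1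
        rwa [List.take_append_drop] at this
      rcases hv' with h1 | h1
      · exact hMtree.closed _ hsd _ h1
      · rcases hq' hv with h2 | ⟨e, he, rfl⟩
        · exact hMtree.closed _ hsd _ (h2.trans (List.prefix_append _ _))
        · have h3 : d <+: e := (List.prefix_append_right_inj s).1 h1
          have h4 : d.take n <+: e := hed.trans h3
          obtain ⟨c, rfl⟩ := h4
          exact (hkey _ _ he).1

end Pool.Agent.Q308.Nm
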