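import Pool.Agent.Q308.Nm.Core2

/-!
# The combined strategy and the final contradiction
-/

namespace Pool.Agent.Q308.Nm

open Ordinal Cardinal Set Relation

/-! ### Gluing finite paths -/

theorem transGen_path {X : Type*} {R : X → X → Prop} {a b : X} (h : TransGen R a b) :
    ∃ n : ℕ, 0 < n ∧ ∃ f : ℕ → X, f 0 = a ∧ f n = b ∧ ∀ i < n, R (f i) (f (i + 1)) := by
  induction h with
  | single h =>
    rename_i b
    refine ⟨1, Nat.one_pos, fun i => if i = 0 then a else b, by simp, by simp, ?_⟩
    intro i hi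
    have : i = 0 := by omega
    subst this
    simpa using h
  | tail h h' ih =>
    rename_i b c
    obtain ⟨n, hn, f, h0, h1, h2⟩ := ih
    refine ⟨n + 1, Nat.succ_pos n, fun i => if i ≤ n then f i else c, by simp [h0], by simp, ?_⟩
    intro i hi
    rcases Nat.lt_or_ge i n with h3 | h3
    · have h4 : i ≤ n := h3.le
      have h5 : i + 1 ≤ n := h3
      simp only [h4, h5, if_true]
      exact h2 i h3
    · have : i = n := by omega
      subst this
      have h5 : ¬ i + 1 ≤ i := by omega
      simp only [le_refl, if_true, h5, if_false]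
      rw [h1]
      exact h'

theorem glue_paths {X : Type*} {R : X → X → Prop} {a : ℕ → X}
    (h : ∀ k, TransGen R (a k) (a (k + 1))) :
    ∃ b : ℕ → X, b 0 = a 0 ∧ (∀ n, R (b n) (b (n + 1))) ∧ ∀ k, ∃ n, b n = a k := by
  choose N hN f hf0 hf1 hf2 using fun k => transGen_path (h k)
  let st : ℕ → ℕ × ℕ := fun n => Nat.rec (0, 0)
    (fun _ x => if x.2 + 1 < N x.1 then (x.1, x.2 + 1) else (x.1 + 1, 0)) n
  have hst : ∀ n, st (n + 1) =
      if (st n).2 + 1 < N (st n).1 then ((st n).1, (st n).2 + 1) else ((st n).1 + 1, 0) :=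
    fun n => rfl
  have hinv : ∀ n, (st n).2 < N (st n).1 := by
    intro n
    induction n with
    | zero => exact hN 0
    | succ n ih =>
      rw [hst]
      split_ifs with h1
      · exact h1
      · exact hN _
  refine ⟨fun n => f (st n).1 (st n).2, hf0 0, ?_, ?_⟩
  · intro n
    change R (f (st n).1 (st n).2) (f (st (n + 1)).1 (st (n + 1)).2)
    have h1 := hf2 (st n).1 (st n).2 (hinv n)
    rw [hst]
    split_ifs with h2
    · exact h1
    · have h3 : (st n).2 + 1 = N (st n).1 := by
        have := hinv n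
        omega
      rw [h3, hf1] at h1
      rw [hf0]
      exact h1
  · intro k
    have hreach : ∀ k, ∃ n, st n = (k, 0) := by
      intro k
      induction k with
      | zero => exact ⟨0, rfl⟩
      | succ k ih =>
        obtain ⟨n, hn⟩ := ih
        have h1 : ∀ i < N k, st (n + i) = (k, i) := by
          intro i
          induction i with
          | zero => intro _; exact hn
          | succ i ih2 =>
            intro hi
            have h2 := ih2 (by omega)
            rw [← Nat.add_assoc, hst, h2]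
            simp only [hi, if_true]
        have h2 := h1 (N k - 1) (by have := hN k; omega)
        refine ⟨n + (N k - 1) + 1, ?_⟩
        rw [hst, h2]
        have h3 : ¬ (N k - 1 + 1 < N k) := by omega
        simp only [h3, if_false]
    obtain ⟨n, hn⟩ := hreach k
    refine ⟨n, ?_⟩
    change f (st n).1 (st n).2 = a k
    rw [hn]
    exact hf0 k

/-! ### The combined strategy -/

section combined

variable {I : Type} {T : Type}

/-- Forcing an optional node into the generic subset. -/
def FO (F : Set (List I) → T → Prop) (o : Option T) (q : Set (List I)) : Prop :=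
  ∀ v, o = some v → F q v

theorem FO_mono {F : Set (List I) → T → Prop} (hF : FR F) (o : Option T) :
    ∀ q q', IsC q → IsC q' → q' ⊆ q → FO F o q → FO F o q' :=
  fun q q' hq hq' h ho v hv => hF.mono q q' v hq hq' h (ho v hv)

theorem FO_dense {F : Set (List I) → T → Prop} (hF : FR F) (o : Option T) :
    ∀ q, IsC q → (∀ q' ⊆ q, IsC q' → ∃ q'' ⊆ q', IsC q'' ∧ FO F o q'') → FO F o q := by
  intro q hq h v hv
  apply hF.dense q v hq
  intro q' hq' hq'C
  obtain ⟨q'', h1, h2, h3⟩ := h q' hq' hq'C
  exact ⟨q'', h1, h2, h3 v hv⟩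

/-- A position: the history of player I's nodes, the current condition and its stem. -/
abbrev Pos (I : Type) (T : Type) : Type := List (Option T) × Set (List I) × List I

/-- One round of the combined game. -/
def Step (F : Set (List I) → T → Prop)
    (G : List (Option T) → Set (List I) → List I → Set (List I) → Set I) (P P' : Pos I T) : Prop :=
  ∃ (o : Option T) (q : Set (List I)) (x : I), q ⊆ P.2.1 ∧ NT q P.2.2 ∧ FO F o q ∧
    P.2.2 ++ [x] ∈ q ∧ x ∉ G (P.1 ++ [o]) P.2.1 P.2.2 q ∧
    P' = (P.1 ++ [o], sub q (P.2.2 ++ [x]), P.2.2 ++ [x])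

theorem exists_strategy (hI : #I = ℵ_ 2) (hT : #(ℕ → Option T) ≤ ℵ₁)
    {F : Set (List I) → T → Prop} (hF : FR F) {p : Set (List I)} {s : List I} (hp : NT p s) :
    ∃ G : List (Option T) → Set (List I) → List I → Set (List I) → Set I,
      (∀ h r t q, Small (G h r t q)) ∧
      ∀ b : ℕ → Pos I T, b 0 = ([], p, s) → (∀ n, Step F G (b n) (b (n + 1))) →
        ∃ q ⊆ p, NT q s ∧ ∀ n, ∀ h v, (b n).1 = h ++ [some v] → F q v := by
  classical
  let Bad : (ℕ → Option T) → Prop := fun w => ¬ ∃ q ⊆ p, NT q s ∧ ∀ n, FO F (w n) q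
  have hΓ : ∀ w : ℕ → Option T, ∃ Γ : ℕ → Set (List I) → List I → Set (List I) → Set I,
      (∀ n r t q, Small (Γ n r t q)) ∧ (Bad w → ∀ R S Q X, R 0 = p → S 0 = s →
        Play (fun n q => FO F (w n) q) R S Q X → ∃ n, X n ∈ Γ n (R n) (S n) (Q n)) := by
    intro w
    by_cases hw : Bad w
    · rcases determinacy hI (fun n q => FO F (w n) q) (fun n => FO_mono hF (w n))
        (fun n => FO_dense hF (w n)) hp with h | ⟨Γ, h1, h2⟩
      · exact absurd h hw
      · exact ⟨Γ, h1, fun _ => h2⟩
    · exact ⟨fun _ _ _ _ => ∅, fun _ _ _ _ => small_empty, fun h => absurd h hw⟩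
  choose Γ hΓ1 hΓ2 using hΓ
  let G : List (Option T) → Set (List I) → List I → Set (List I) → Set I := fun h r t q =>
    ⋃ w : ℕ → Option T, if h = (List.range h.length).map w then Γ w (h.length - 1) r t q else ∅
  refine ⟨G, ?_, ?_⟩
  · intro h r t q
    apply small_iUnion hT
    intro w
    split_ifs with h1
    · exact hΓ1 _ _ _ _ _
    · exact small_empty
  · intro b hb0 hb
    choose o Q X hsub hnt hfo hmem hG hnext using hb
    have hhist : ∀ n, (b n).1 = (List.range n).map o := by
      intro n
      induction n with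
      | zero => rw [hb0]; rfl
      | succ n ih =>
        rw [hnext n, List.range_succ, List.map_append, ← ih]
        rfl
    have hplay : Play (fun n q => FO F (o n) q) (fun n => (b n).2.1) (fun n => (b n).2.2) Q X := by
      refine ⟨hsub, hnt, hfo, hmem, ?_, ?_⟩
      · intro n
        change (b (n + 1)).2.1 = _
        rw [hnext n]
      · intro n
        change (b (n + 1)).2.2 = _
        rw [hnext n]
    have hgood : ¬ Bad o := by
      intro hbad
      obtain ⟨n, hn⟩ := hΓ2 o hbad _ _ _ _ (by rw [hb0]) (by rw [hb0]) hplay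
      apply hG n
      apply Set.mem_iUnion.2
      refine ⟨o, ?_⟩
      have h1 : (b n).1 ++ [o n] = (List.range (n + 1)).map o := by
        rw [hhist n, List.range_succ, List.map_append]
        rfl
      have h2 : ((b n).1 ++ [o n]).length = n + 1 := by rw [h1]; simp
      rw [h2, if_pos h1]
      exact hn
    have hgood' : ∃ q ⊆ p, NT q s ∧ ∀ n, FO F (o n) q := not_not.1 hgood
    obtain ⟨q, hq, hqs, hqF⟩ := hgood'
    refine ⟨q, hq, hqs, ?_⟩
    intro n h v hnv
    cases n with
    | zero => rw [hb0] at hnv; simp at hnv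
    | succ n =>
      rw [hnext n] at hnv
      have h1 : o n = some v := by
        have h2 : (b n).1 ++ [o n] = h ++ [some v] := hnv
        exact (List.append_inj' h2 rfl).2 |> List.singleton_inj.1
      exact hqF n v h1

/-- Valid positions. -/
def Valid (p : Set (List I)) (P : Pos I T) : Prop := NT P.2.1 P.2.2 ∧ P.2.1 ⊆ p

theorem Valid.step {F : Set (List I) → T → Prop} {G} {p : Set (List I)} {P P' : Pos I T}
    (hP : Valid p P) (h : Step F G P P') : Valid p P' := by
  obtain ⟨o, q, x, h1, h2, _, h4, _, rfl⟩ := h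
  exact ⟨h2.sub h4 (List.prefix_append _ _), (sub_subset _ _).trans (h1.trans hP.2)⟩

theorem Valid.reach {F : Set (List I) → T → Prop} {G} {p : Set (List I)} {P P' : Pos I T}
    (hP : Valid p P) (h : TransGen (Step F G) P P') : Valid p P' := by
  induction h with
  | single h => exact hP.step h
  | tail _ h ih => exact ih.step h

/-- Walking down a tree while avoiding the sets of player II. -/
theorem walk (hI : #I = ℵ_ 2) {F : Set (List I) → T → Prop}
    {G : List (Option T) → Set (List I) → List I → Set (List I) → Set I}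
    (hG : ∀ h r t q, Small (G h r t q)) {p : Set (List I)} {P : Pos I T} (hP : Valid p P) :
    ∃ r' ⊆ P.2.1, NT r' P.2.2 ∧ ∀ t ∈ r', P.2.2 <+: t →
      ∃ h, ReflTransGen (Step F G) P (h, sub P.2.1 t, t) := by
  obtain ⟨h0, r, s⟩ := P
  obtain ⟨hNT, hrp⟩ := hP
  change NT r s at hNT
  change r ⊆ p at hrp
  let hist : List I → List (Option T) := fun t => h0 ++ List.replicate (t.length - s.length) none
  let B : List I → I → Prop := fun t i => i ∈ G (hist t ++ [none]) (sub r t) t (sub r t)
  have hprune : NT (prune r s B) s := by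
    apply hNT.prune hI
    intro t _ _
    refine (hG (hist t ++ [none]) (sub r t) t (sub r t)).mono ?_
    rintro i ⟨_, hi⟩
    exact hi
  refine ⟨prune r s B, prune_subset _ _ _, hprune, ?_⟩
  intro t ht hst
  refine ⟨hist t, ?_⟩
  obtain ⟨d, rfl⟩ := hst
  induction d using List.reverseRecOn with
  | nil =>
    have h1 : hist (s ++ []) = h0 := by simp [hist]
    rw [h1]
    simp only [List.append_nil]
    rw [hNT.sub_stem]
  | append_singleton d i ih =>
    have hassoc : s ++ (d ++ [i]) = (s ++ d) ++ [i] := (List.append_assoc _ _ _).symm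
    rw [hassoc] at ht ⊢
    have htd : s ++ d ∈ prune r s B := hprune.closed _ ht _ (List.prefix_append _ _)
    refine (ih htd).tail ?_
    have hnt : NT (sub r (s ++ d)) (s ++ d) := hNT.sub htd.1 (List.prefix_append _ _)
    refine ⟨none, sub r (s ++ d), i, Set.Subset.refl _, hnt, ?_, ?_, ?_, ?_⟩
    · intro v hv
      exact absurd hv (by simp)
    · exact ⟨ht.1, Or.inr (List.prefix_append _ _)⟩
    · exact ht.2 (s ++ d) i (List.prefix_append _ _) (List.prefix_refl _)
    · have h1 : hist (s ++ d ++ [i]) = hist (s ++ d) ++ [none] := by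
        simp only [hist]
        have h2 : (s ++ d ++ [i]).length - s.length = d.length + 1 := by
          simp
        have h3 : (s ++ d).length - s.length = d.length := by simp
        rw [h2, h3, List.replicate_succ', List.append_assoc]
      rw [h1]
      change _ = (hist (s ++ d) ++ [none], sub (sub r (s ++ d)) (s ++ d ++ [i]), s ++ d ++ [i])
      rw [sub_sub (List.prefix_append _ _)]

/-- The main contradiction. -/
theorem decided (hI : #I = ℵ_ 2) (hT : #T ≤ ℵ₁) (hTω : #(ℕ → Option T) ≤ ℵ₁) {ι : Type*}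
    {F : Set (List I) → T → Prop} (hF : FR F) {le : T → T → Prop} {lev : ι → Set T}
    (hcov : ∀ v, ∃ α, v ∈ lev α)
    (hanti : ∀ α, ∀ v ∈ lev α, ∀ v' ∈ lev α, (le v v' ∨ le v' v) → v = v')
    (hbd : ∀ V : Set T, V.Countable → ∃ α, (lev α).Nonempty ∧ (lev α).Countable ∧
      ∀ v ∈ V, ∀ u ∈ lev α, (le v u ∨ le u v) → le v u)
    (htree : ∀ u a b, le a u → le b u → le a b ∨ le b a)
    {p : Set (List I)} {s : List I} (hp : NT p s) (hb : BR F le lev p) :
    ∃ q ⊆ p, IsC q ∧ ∃ B, Decides F q B := by
  classical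
  by_contra hcon
  have hnd : ∀ q ⊆ p, IsC q → ∀ B, ¬ Decides F q B := by
    intro q hq hqC B hB
    exact hcon ⟨q, hq, hqC, B, hB⟩
  obtain ⟨G, hG, hGplay⟩ := exists_strategy hI hTω hF hp
  -- splitting positions
  have hmacro : ∀ P : Pos I T, ∃ (P' : Bool → Pos I T) (v : Bool → T), Valid p P →
      (∀ b, TransGen (Step F G) P (P' b) ∧ ∃ h, (P' b).1 = h ++ [some (v b)]) ∧
      ¬ le (v true) (v false) ∧ ¬ le (v false) (v true) := by
    intro P
    by_cases hP : Valid p P
    · obtain ⟨r', hr', hr'NT, hwalk⟩ := walk (F := F) hI hG hP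
      have hr'p : r' ⊆ p := hr'.trans hP.2
      have hb' : BR F le lev r' :=
        ⟨fun q hq hqC => hb.chain q (hq.trans hr'p) hqC,
          fun q hq hqC => hb.meets q (hq.trans hr'p) hqC⟩
      obtain ⟨t, ht, hst, a, ⟨qa, hqa, hqa', hFa⟩, b, ⟨qb, hqb, hqb', hFb⟩, hab, hba⟩ :=
        splitting hI hT hF hcov hanti hr'NT hb'
          (fun q hq hqC B => hnd q (hq.trans hr'p) hqC B)
      obtain ⟨h, hreach⟩ := hwalk t ht hst
      have hmove : ∀ (q : Set (List I)) (v : T), q ⊆ sub r' t → NT q t → F q v →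
          ∃ P' : Pos I T, TransGen (Step F G) P P' ∧ ∃ h, P'.1 = h ++ [some v] := by
        intro q v hq hqt hFv
        have h1 := (hqt.large t hqt.mem (List.prefix_refl t)).diff hI
          (hG (h ++ [some v]) (sub P.2.1 t) t q)
        obtain ⟨x, hx, hx'⟩ := h1.nonempty
        refine ⟨(h ++ [some v], sub q (t ++ [x]), t ++ [x]), ?_, h, rfl⟩
        refine TransGen.tail' hreach ⟨some v, q, x, ?_, hqt, ?_, hx, hx', rfl⟩
        · exact hq.trans (sub_mono hr' t)
        · intro v' hv'
          rw [Option.some_inj] at hv'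
          rw [← hv']
          exact hFv
      obtain ⟨Pa, hPa, hPa'⟩ := hmove qa a hqa hqa' hFa
      obtain ⟨Pb, hPb, hPb'⟩ := hmove qb b hqb hqb' hFb
      refine ⟨fun c => if c then Pa else Pb, fun c => if c then a else b, fun _ => ⟨?_, ?_, ?_⟩⟩
      · intro c
        cases c
        · exact ⟨hPb, hPb'⟩
        · exact ⟨hPa, hPa'⟩
      · exact hab
      · exact hba
    · have hne : Nonempty T := by
        by_contra hne
        rw [not_nonempty_iff] at hne
        obtain ⟨α, ⟨v, _⟩, _⟩ := hbd ∅ Set.countable_empty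
        exact hne.false v
      obtain ⟨v⟩ := hne
      exact ⟨fun _ => P, fun _ => v, fun h => absurd h hP⟩
  choose M v hM using hmacro
  -- the binary tree of positions
  let P : List Bool → Pos I T := fun l => l.foldl (fun P b => M P b) ([], p, s)
  have hPsnoc : ∀ l b, P (l ++ [b]) = M (P l) b := by
    intro l b
    simp only [P, List.foldl_append, List.foldl_cons, List.foldl_nil]
  have hPvalid : ∀ l, Valid p (P l) := by
    intro l
    induction l using List.reverseRecOn with
    | nil => exact ⟨hp, Set.Subset.refl _⟩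
    | append_singleton l b ih =>
      rw [hPsnoc]
      exact ih.reach ((hM (P l) ih).1 b).1
  let V : Set T := Set.range (fun x : List Bool × Bool => v (P x.1) x.2)
  obtain ⟨α, hαne, hαc, hα⟩ := hbd V (Set.countable_range _)
  obtain ⟨u, hu⟩ := hαc.exists_eq_range hαne
  have hchoice : ∀ l : List Bool, ∀ j : ℕ, ∃ b : Bool, ¬ le (v (P l) b) (u j) := by
    intro l j
    by_contra hc
    push Not at hc
    have h1 := (hM (P l) (hPvalid l)).2
    rcases htree (u j) _ _ (hc true) (hc false) with h | h
    · exact h1.1 h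
    · exact h1.2 h
  choose c hc using hchoice
  let l : ℕ → List Bool := fun n => Nat.rec [] (fun j l => l ++ [c l j]) n
  have hl : ∀ n, l (n + 1) = l n ++ [c (l n) n] := fun n => rfl
  obtain ⟨b, hb0, hb1, hb2⟩ := glue_paths (R := Step F G) (a := fun n => P (l n)) (by
    intro k
    change TransGen (Step F G) (P (l k)) (P (l (k + 1)))
    rw [hl, hPsnoc]
    exact ((hM (P (l k)) (hPvalid _)).1 _).1)
  obtain ⟨q, hq, hqs, hqF⟩ := hGplay b hb0 hb1
  obtain ⟨q', hq'q, hq', x, hxα, hFx⟩ := hb.meets q hq ⟨s, hqs⟩ α hαne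
  have hxu : x ∈ Set.range u := by rw [← hu]; exact hxα
  obtain ⟨j, rfl⟩ := hxu
  obtain ⟨n, hn⟩ := hb2 (j + 1)
  have hn' : b n = M (P (l j)) (c (l j) j) := by
    rw [hn]
    change P (l (j + 1)) = _
    rw [hl, hPsnoc]
  obtain ⟨h, hh⟩ := ((hM (P (l j)) (hPvalid _)).1 (c (l j) j)).2
  rw [← hn'] at hh
  have hF1 := hqF n h _ hh
  have hF2 := hF.mono q q' _ ⟨s, hqs⟩ hq' hq'q hF1
  have hcomp := hb.chain q' (hq'q.trans hq) hq' _ _ hF2 hFx
  have hle := hα _ ⟨(l j, c (l j) j), rfl⟩ _ hxα hcomp
  exact hc (l j) j hle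

end combined

end Pool.Agent.Q308.Nm
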