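import Mathlib

/-!
# Definitions: trees of height `ω₁`, the Laver-like Namba forcing, names for branches
-/

namespace Pool.Agent.Q308.Nm

open Ordinal Cardinal Set

universe u v

/-! ### Trees -/

/-- A tree: the (strict) predecessors of every node form a well-order. -/
def IsTree (T : Type u) [PartialOrder T] : Prop :=
  ∀ t : T, IsWellOrder {s : T // s < t} (· < ·)

/-- The node `t` is on level `α`: its predecessor set has order type `α`. -/
def OnLevel {T : Type u} [PartialOrder T] (t : T) (α : Ordinal.{u}) : Prop :=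
  ∃ h : IsWellOrder {s : T // s < t} (· < ·), @Ordinal.type {s : T // s < t} (· < ·) h = α

/-- The level `T_α`. -/
def Level (T : Type u) [PartialOrder T] (α : Ordinal.{u}) : Set T := {t | OnLevel t α}

/-- The height of the tree `T` is `η`: the least `α` with `T_α` empty is `η`. -/
def HasHeight (T : Type u) [PartialOrder T] (η : Ordinal.{u}) : Prop :=
  Level T η = ∅ ∧ ∀ α < η, (Level T α).Nonempty

/-- An `ω₁`-tree: a tree of height `ω₁` all of whose levels are countable. -/
def IsOmegaOneTree (T : Type u) [PartialOrder T] : Prop :=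
  IsTree T ∧ HasHeight T ω₁ ∧ ∀ α : Ordinal.{u}, (Level T α).Countable

/-- A cofinal branch: a linearly ordered downward closed subset which meets every level
(every level `T_α` with `α < ω₁`). -/
def IsCofinalBranch (T : Type u) [PartialOrder T] (B : Set T) : Prop :=
  IsChain (· ≤ ·) B ∧ (∀ x ∈ B, ∀ y ≤ x, y ∈ B) ∧ ∀ α < (ω₁ : Ordinal.{u}), (B ∩ Level T α).Nonempty

/-! ### The Laver-like Namba forcing -/

/-- The set of ordinals below `ω₂` (the canonical well-order of type `ω₂`). -/
abbrev Om2 : Type := (ω_ 2 : Ordinal.{0}).ToType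

/-- `p` is a condition of the forcing `Nm'`: a subtree of `ω₂^{<ω}` (closed under taking initial
segments) with a stem `s ∈ p` such that every node is comparable with `s` and every
`t ∈ p` extending `s` has `ℵ₂` many immediate successors in `p`. -/
def IsCond (p : Set (List Om2)) : Prop :=
  (∀ t ∈ p, ∀ u, u <+: t → u ∈ p) ∧
    ∃ s ∈ p, (∀ t ∈ p, t <+: s ∨ s <+: t) ∧
      ∀ t ∈ p, s <+: t → #{i : Om2 | t ++ [i] ∈ p} = ℵ_ 2

/-- The Laver-like Namba forcing `Nm'`, ordered by inclusion. -/
def NmPrime : Type := {p : Set (List Om2) // IsCond p}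

instance : PartialOrder NmPrime := inferInstanceAs (PartialOrder {p : Set (List Om2) // IsCond p})

/-! ### Forcing -/

/-- `p` forces that the generic filter meets `D`. -/
def FMeets {P : Type v} [PartialOrder P] (p : P) (D : Set P) : Prop :=
  ∀ q ≤ p, ∃ r ≤ q, ∃ d ∈ D, r ≤ d

/-- `p` forces that the generic filter does not meet `D`. -/
def FMisses {P : Type v} [PartialOrder P] (p : P) (D : Set P) : Prop :=
  ∀ q ≤ p, ¬ ∃ d ∈ D, q ≤ d

/-- A name for a subset of `T`: `t` belongs to the named subset iff the generic filter meets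
`σ t`. -/
abbrev SubsetName (P : Type v) (T : Type u) : Type (max u v) := T → Set P

/-- `p` forces that the subset of `T` named by `σ` is a cofinal branch of `T`. -/
def ForcesCofinalBranch {P : Type v} [PartialOrder P] {T : Type u} [PartialOrder T]
    (p : P) (σ : SubsetName P T) : Prop :=
  (∀ x y : T, ∀ q ≤ p, FMeets q (σ x) → FMeets q (σ y) → x ≤ y ∨ y ≤ x) ∧
  (∀ x y : T, y ≤ x → ∀ q ≤ p, FMeets q (σ x) → FMeets q (σ y)) ∧
  (∀ α < (ω₁ : Ordinal.{u}), ∀ q ≤ p, ∃ r ≤ q, ∃ x ∈ Level T α, FMeets r (σ x))

/-- `p` forces that the subset of `T` named by `σ` equals the ground model set `B`. -/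
def ForcesEq {P : Type v} [PartialOrder P] {T : Type u} (p : P) (σ : SubsetName P T)
    (B : Set T) : Prop :=
  (∀ x ∈ B, FMeets p (σ x)) ∧ ∀ x ∉ B, FMisses p (σ x)

/-- `P` adds no new cofinal branch to `T`: whenever `p` forces that the subset named by `σ` is a
cofinal branch, then `p` forces that this subset is in the ground model, that is, the conditions
which force it to be equal to some ground model cofinal branch are dense below `p`. -/
def AddsNoCofinalBranch (P : Type v) [PartialOrder P] (T : Type u) [PartialOrder T] : Prop :=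
  ∀ (σ : SubsetName P T) (p : P), ForcesCofinalBranch p σ →
    ∀ q ≤ p, ∃ r ≤ q, ∃ B : Set T, IsCofinalBranch T B ∧ ForcesEq r σ B

end Pool.Agent.Q308.Nm
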